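import Mathlib
import Pool.Agent.H568.GR.Stm

set_option autoImplicit false

namespace Pool.Agent.TH17.GR

open Finset Pool.Agent.H568.GR

/-- the weight -/
noncomputable def rr (D : ℤ) (n : ℕ) : ℝ := ∑ d ∈ n.divisors, ((jacobiSym D d : ℤ) : ℝ)

theorem rr_le (D : ℤ) (n : ℕ) : rr D n ≤ n.divisors.card := by
  unfold rr
  have h : ∀ d ∈ n.divisors, ((jacobiSym D d : ℤ) : ℝ) ≤ 1 := by
    intro d _
    rcases jacobiSym.trichotomy D d with h | h | h <;> rw [h] <;> norm_num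
  calc ∑ d ∈ n.divisors, ((jacobiSym D d : ℤ) : ℝ) ≤ ∑ d ∈ n.divisors, (1 : ℝ) := sum_le_sum h
    _ = n.divisors.card := by simp

theorem rr_prime_mul (D : ℤ) {p m : ℕ} (hp : p.Prime) (hm : ¬ p ∣ m) (hm0 : m ≠ 0)
    (h : jacobiSym D p = -1) : rr D (p * m) = 0 := by
  unfold rr
  have h1 : (p * m).divisors = m.divisors ∪ m.divisors.image (fun e => p * e) := by
    ext d
    rw [mem_union, mem_image, Nat.mem_divisors, Nat.mem_divisors]
    constructor
    · rintro ⟨h2, h3⟩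
      by_cases h4 : p ∣ d
      · obtain ⟨e, rfl⟩ := h4
        exact Or.inr ⟨e, Nat.mem_divisors.2 ⟨Nat.dvd_of_mul_dvd_mul_left hp.pos h2, hm0⟩, rfl⟩
      · exact Or.inl ⟨(((Nat.Prime.coprime_iff_not_dvd hp).2 h4).symm).dvd_of_dvd_mul_left h2, hm0⟩
    · rintro (⟨h2, -⟩ | ⟨e, he, rfl⟩)
      · exact ⟨h2.mul_left p, mul_ne_zero hp.ne_zero hm0⟩
      · exact ⟨Nat.mul_dvd_mul_left p (Nat.dvd_of_mem_divisors he), mul_ne_zero hp.ne_zero hm0⟩
  have h2 : Disjoint m.divisors (m.divisors.image (fun e => p * e)) := by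
    rw [disjoint_left]
    intro d hd hd2
    obtain ⟨e, _, rfl⟩ := mem_image.1 hd2
    exact hm ((dvd_mul_right p e).trans (Nat.dvd_of_mem_divisors hd))
  rw [h1, sum_union h2, sum_image (fun x _ y _ hxy => Nat.eq_of_mul_eq_mul_left hp.pos hxy),
    ← sum_add_distrib]
  refine sum_eq_zero fun e he => ?_
  have he0 : e ≠ 0 := (Nat.pos_of_mem_divisors he).ne'
  rw [jacobiSym.mul_right' D hp.ne_zero he0, h]
  push_cast
  ring

/-- the decomposition of an odd number of nonzero weight -/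
theorem decomp (D : ℤ) (hD : D ≠ 0) {n N : ℕ} (hn : 1 ≤ n) (hN : n ≤ N) (ho : Odd n)
    (h : rr D n ≠ 0) : ∃ s₁ s₂ s₃ m : ℕ, n = s₁ * s₂ * s₃ * m ^ 2 ∧ s₁ ∈ MM D N ∧
      s₂ ∈ D.natAbs.divisors ∧ s₃ ∣ m ∧ 1 ≤ m := by
  classical
  obtain ⟨s, m, hs0, hm0, hsm, hsq⟩ := Nat.sq_mul_squarefree_of_pos (show 0 < n by omega)
  obtain ⟨s', hs'⟩ := Nat.gcd_dvd_left s m
  obtain ⟨s₁, hs₁⟩ := Nat.gcd_dvd_left s' D.natAbs
  have hs'0 : s' ≠ 0 := by rintro rfl; rw [mul_zero] at hs'; omega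
  have hs₁0 : s₁ ≠ 0 := by rintro rfl; rw [mul_zero] at hs₁; omega
  have hnf : n = s₁ * s'.gcd D.natAbs * s.gcd m * m ^ 2 := by
    rw [← hsm, mul_comm (m ^ 2) s]
    congr 1
    rw [mul_comm s₁, ← hs₁, mul_comm]
    exact hs'
  have hs'sq : Squarefree s' := hsq.squarefree_of_dvd ⟨s.gcd m, by rw [mul_comm]; exact hs'⟩
  have hs₁d : s₁ ∣ s' := ⟨s'.gcd D.natAbs, by rw [mul_comm]; exact hs₁⟩
  have hs₁n : s₁ ∣ n := by
    rw [hnf, mul_assoc, mul_assoc]
    exact dvd_mul_right _ _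
  refine ⟨s₁, s'.gcd D.natAbs, s.gcd m, m, hnf, ?_, ?_, Nat.gcd_dvd_right s m, hm0⟩
  · unfold MM
    rw [mem_filter, mem_Icc]
    refine ⟨⟨Nat.one_le_iff_ne_zero.2 hs₁0, (Nat.le_of_dvd (by omega) hs₁n).trans hN⟩,
      hs'sq.squarefree_of_dvd hs₁d, ?_⟩
    intro p hp hps
    have hps' : p ∣ s' := hps.trans hs₁d
    have hps2 : p ∣ s := by rw [hs']; exact hps'.mul_left _
    -- `p` does not divide `m`
    have hpm : ¬ p ∣ m := by
      intro hpm
      have h1 : p ∣ s.gcd m := Nat.dvd_gcd hps2 hpm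
      have h2 : p * p ∣ s := by
        rw [hs']
        exact Nat.mul_dvd_mul h1 hps'
      exact hp.one_lt.ne' (Nat.isUnit_iff.1 (hsq p h2))
    -- `p` does not divide `D`
    have hpD : ¬ p ∣ D.natAbs := by
      intro hpD
      have h1 : p ∣ s'.gcd D.natAbs := Nat.dvd_gcd hps' hpD
      have h2 : p * p ∣ s' := by
        rw [hs₁]
        exact Nat.mul_dvd_mul h1 hps
      exact hp.one_lt.ne' (Nat.isUnit_iff.1 (hs'sq p h2))
    have hp2 : p ≠ 2 := by
      rintro rfl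
      have h1 : 2 ∣ n := hps.trans hs₁n
      rcases ho with ⟨k, hk⟩
      omega
    refine ⟨hp2, ?_⟩
    rcases jacobiSym.trichotomy D p with h0 | h0 | h0
    · exfalso
      rw [jacobiSym.eq_zero_iff] at h0
      apply h0.2
      rw [Int.gcd, Int.natAbs_natCast]
      exact ((Nat.Prime.coprime_iff_not_dvd hp).2 hpD).symm
    · exact h0
    · exfalso
      apply h
      obtain ⟨t, ht⟩ := hps2
      have hpt : ¬ p ∣ t := by
        rintro ⟨u, rfl⟩
        have h2 : p * p ∣ s := ⟨u, by rw [ht]; ring⟩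
        exact hp.one_lt.ne' (Nat.isUnit_iff.1 (hsq p h2))
      have h3 : n = p * (t * m ^ 2) := by rw [← hsm, ht]; ring
      have h4 : ¬ p ∣ t * m ^ 2 := by
        intro h5
        rcases (Nat.Prime.dvd_mul hp).1 h5 with h6 | h6
        · exact hpt h6
        · exact hpm (hp.dvd_of_dvd_pow h6)
      rw [h3]
      refine rr_prime_mul D hp h4 ?_ h0
      intro h5
      rw [h5, mul_zero] at h3
      omega
  · exact Nat.mem_divisors.2 ⟨Nat.gcd_dvd_right _ _, Int.natAbs_ne_zero.2 hD⟩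

open Classical in
/-- the numbers up to `N` divisible by a square `m²`, `m > b` -/
theorem card_sq (N b : ℕ) (hb : 1 ≤ b) :
    (((Icc 1 N).filter (fun n => ∃ m, b < m ∧ m ^ 2 ∣ n)).card : ℝ) ≤ N / b := by
  have h1 : (Icc 1 N).filter (fun n => ∃ m, b < m ∧ m ^ 2 ∣ n) ⊆
      (Ioc b N).biUnion (fun m => (Ioc 0 N).filter (fun n => m ^ 2 ∣ n)) := by
    intro n hn
    rw [mem_filter, mem_Icc] at hn
    obtain ⟨⟨h2, h3⟩, m, h4, h5⟩ := hn
    rw [mem_biUnion]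
    refine ⟨m, ?_, ?_⟩
    · rw [mem_Ioc]
      refine ⟨h4, ?_⟩
      have h6 := Nat.le_of_dvd (by omega) h5
      nlinarith
    · rw [mem_filter, mem_Ioc]
      exact ⟨⟨by omega, h3⟩, h5⟩
  have h2 : (((Icc 1 N).filter (fun n => ∃ m, b < m ∧ m ^ 2 ∣ n)).card : ℝ) ≤
      ∑ m ∈ Ioc b N, (N : ℝ) * ((m : ℝ) ^ 2)⁻¹ := by
    calc (((Icc 1 N).filter (fun n => ∃ m, b < m ∧ m ^ 2 ∣ n)).card : ℝ)
        ≤ (((Ioc b N).biUnion (fun m => (Ioc 0 N).filter (fun n => m ^ 2 ∣ n))).card : ℝ) := by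
          exact_mod_cast card_le_card h1
      _ ≤ ((∑ m ∈ Ioc b N, ((Ioc 0 N).filter (fun n => m ^ 2 ∣ n)).card : ℕ) : ℝ) := by
          exact_mod_cast card_biUnion_le
      _ = ∑ m ∈ Ioc b N, (((N / m ^ 2 : ℕ)) : ℝ) := by
          rw [Nat.cast_sum]
          refine sum_congr rfl fun m _ => ?_
          rw [Nat.Ioc_filter_dvd_card_eq_div]
      _ ≤ ∑ m ∈ Ioc b N, (N : ℝ) * ((m : ℝ) ^ 2)⁻¹ := by
          refine sum_le_sum fun m _ => ?_
          refine Nat.cast_div_le.trans ?_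
          rw [Nat.cast_pow, div_eq_mul_inv]
  refine h2.trans ?_
  rw [← mul_sum, div_eq_mul_inv]
  refine mul_le_mul_of_nonneg_left ?_ (Nat.cast_nonneg N)
  rcases le_or_gt b N with h3 | h3
  · refine (sum_Ioc_inv_sq_le_sub (by omega) h3).trans ?_
    have : (0 : ℝ) ≤ (N : ℝ)⁻¹ := by positivity
    linarith
  · rw [Ioc_eq_empty (by omega), sum_empty]
    positivity

theorem dec : S_DEC := by
  classical
  intro D hD N B T hB hT
  set b : ℕ := ⌊B⌋₊ with hb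
  have hb1 : 1 ≤ b := Nat.le_floor (by exact_mod_cast hB)
  have hbB : (b : ℝ) ≤ B := Nat.floor_le (by linarith)
  have hBb : B < b + 1 := Nat.lt_floor_add_one B
  set S : Finset ℕ := (Icc 1 N).filter (fun n => Odd n ∧ rr D n ≠ 0) with hS
  have hτ : (1 : ℝ) ≤ D.natAbs.divisors.card := by
    have : 0 < D.natAbs.divisors.card :=
      card_pos.2 ⟨1, Nat.mem_divisors.2 ⟨one_dvd _, Int.natAbs_ne_zero.2 hD⟩⟩
    exact_mod_cast this
  rcases Nat.eq_zero_or_pos N with hN | hN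
  · subst hN
    have hMM : MM D 0 = ∅ := by
      unfold MM
      rw [filter_eq_empty_iff]
      intro x hx
      simp at hx
    rw [hMM]
    simp
  have hT1 : 1 ≤ T := by
    have := hT 1 (mem_Icc.2 ⟨le_rfl, hN⟩)
    simpa using this
  -- the sum is at most `T #S`
  have h1 : ∑ n ∈ (Icc 1 N).filter (fun n => Odd n), ∑ d ∈ n.divisors, ((jacobiSym D d : ℤ) : ℝ) ≤
      T * S.card := by
    have h2 : ∀ n ∈ (Icc 1 N).filter (fun n => Odd n), rr D n ≤ if rr D n ≠ 0 then T else 0 := by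
      intro n hn
      split_ifs with h3
      · exact (rr_le D n).trans (hT n (mem_filter.1 hn).1)
      · rw [not_not] at h3; rw [h3]
    calc ∑ n ∈ (Icc 1 N).filter (fun n => Odd n), ∑ d ∈ n.divisors, ((jacobiSym D d : ℤ) : ℝ)
        ≤ ∑ n ∈ (Icc 1 N).filter (fun n => Odd n), (if rr D n ≠ 0 then T else 0) :=
          sum_le_sum h2
      _ = ∑ n ∈ S, T := by rw [← sum_filter, filter_filter]
      _ = T * S.card := by rw [sum_const, nsmul_eq_mul, mul_comm]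
  -- the two parts of `S`
  have h2 : S ⊆ ((MM D N ×ˢ D.natAbs.divisors) ×ˢ (Icc 1 b ×ˢ Icc 1 b)).image
      (fun x => x.1.1 * x.1.2 * x.2.1 * x.2.2 ^ 2) ∪
      (Icc 1 N).filter (fun n => ∃ m, b < m ∧ m ^ 2 ∣ n) := by
    intro n hn
    rw [hS, mem_filter, mem_Icc] at hn
    obtain ⟨⟨h3, h4⟩, h5, h6⟩ := hn
    obtain ⟨s₁, s₂, s₃, m, h7, h8, h9, h10, h11⟩ := decomp D hD h3 h4 h5 h6
    rw [mem_union]
    rcases le_or_gt m b with h12 | h12
    · left
      rw [mem_image]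
      refine ⟨((s₁, s₂), (s₃, m)), ?_, h7.symm⟩
      rw [mem_product, mem_product, mem_product, mem_Icc, mem_Icc]
      exact ⟨⟨h8, h9⟩, ⟨Nat.pos_of_dvd_of_pos h10 h11, (Nat.le_of_dvd h11 h10).trans h12⟩,
        h11, h12⟩
    · right
      rw [mem_filter, mem_Icc]
      exact ⟨⟨h3, h4⟩, m, h12, ⟨s₁ * s₂ * s₃, by rw [h7]; ring⟩⟩
  have h3 : (S.card : ℝ) ≤ (MM D N).card * D.natAbs.divisors.card * B ^ 2 + N / b := by
    calc (S.card : ℝ) ≤ ((((MM D N ×ˢ D.natAbs.divisors) ×ˢ (Icc 1 b ×ˢ Icc 1 b)).image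
      (fun x => x.1.1 * x.1.2 * x.2.1 * x.2.2 ^ 2)).card +
      ((Icc 1 N).filter (fun n => ∃ m, b < m ∧ m ^ 2 ∣ n)).card : ℕ) := by
          exact_mod_cast (card_le_card h2).trans (card_union_le _ _)
      _ ≤ ((((MM D N ×ˢ D.natAbs.divisors) ×ˢ (Icc 1 b ×ˢ Icc 1 b)).card : ℕ) : ℝ) + N / b := by
          rw [Nat.cast_add]
          exact add_le_add (by exact_mod_cast card_image_le) (card_sq N b hb1)
      _ = (MM D N).card * D.natAbs.divisors.card * (b : ℝ) ^ 2 + N / b := by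
          rw [card_product, card_product, card_product, Nat.card_Icc]
          push_cast
          ring
      _ ≤ _ := by
          have : (b : ℝ) ^ 2 ≤ B ^ 2 := pow_le_pow_left₀ (Nat.cast_nonneg b) hbB 2
          gcongr
  have hb0 : (0 : ℝ) < b := by exact_mod_cast hb1
  have h4 : (N : ℝ) / b ≤ 10 * N / B ^ (1 / 4 : ℝ) := by
    have hB4 : B ^ (1 / 4 : ℝ) ≤ B := by
      calc B ^ (1 / 4 : ℝ) ≤ B ^ (1 : ℝ) := Real.rpow_le_rpow_of_exponent_le hB (by norm_num)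
        _ = B := Real.rpow_one B
    have hB0 : 0 < B ^ (1 / 4 : ℝ) := Real.rpow_pos_of_pos (by linarith) _
    have hb1' : (1 : ℝ) ≤ b := by exact_mod_cast hb1
    rw [div_le_div_iff₀ hb0 hB0]
    have hN0 : (0 : ℝ) ≤ N := Nat.cast_nonneg N
    nlinarith
  refine h1.trans ?_
  have hX : (0 : ℝ) ≤ 10 * N / B ^ (1 / 4 : ℝ) := by
    have hB0 : 0 < B ^ (1 / 4 : ℝ) := Real.rpow_pos_of_pos (by linarith) _
    positivity
  calc T * (S.card : ℝ) ≤ T * ((MM D N).card * D.natAbs.divisors.card * B ^ 2 +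
        10 * N / B ^ (1 / 4 : ℝ)) :=
        mul_le_mul_of_nonneg_left (h3.trans (by linarith)) (by linarith)
    _ ≤ T * (D.natAbs.divisors.card * (B ^ 2 * (MM D N).card + 10 * N / B ^ (1 / 4 : ℝ))) := by
        refine mul_le_mul_of_nonneg_left ?_ (by linarith)
        nlinarith
    _ = _ := by ring

end Pool.Agent.TH17.GR
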